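import Mathlib
import Pool.Agent.H12.Seven4

set_option autoImplicit false

namespace Pool.Agent.Results.MP_e1005d_co.NoFlag

open scoped Classical Matroid
open Pool.Agent.H12.Tang Pool.Agent.H12.Seven4

/-- A tangential block with a modular copoint need not be supersolvable. -/
theorem result :
    ¬ ∀ (F : Type) [Field F] [Fintype F] (k : ℕ), 1 ≤ k →
      ∀ (α : Type) [Fintype α] (M : Matroid α), Tangential F k M →
        (∃ H : Set α, Modular M H ∧ M.eRk H + 1 = M.eRk M.E) → Supersolvable M := by
  intro h
  have := fact7
  exact not_ss (h (ZMod 7) 1 le_rfl (Fin 19) M tangential ⟨X, modX, rkXE⟩)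

end Pool.Agent.Results.MP_e1005d_co.NoFlag
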